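import Pool.Agent.helper70.BND.SpecH

/-! FWE: the second estimate. -/

set_option autoImplicit false

open scoped Topology
open Finset

namespace Pool.Agent.BND.EX

/-- sums over words of vertices -/
theorem FWE_list (n n' : ℕ) (M : ℕ → ℕ → ℕ) (a : ℕ → ℝ) (f : ℕ → ℝ) (D : ℝ)
    (hf : ∀ x, x < n' → |f x - ∑ v ∈ range n, (M x v : ℝ) * a v| ≤ D) (u : List ℕ)
    (hu : ∀ x ∈ u, x < n') :
    |(u.map f).sum - ∑ v ∈ range n, (kp M u v : ℝ) * a v| ≤ u.length * D := by
  induction u with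
  | nil => simp [kp]
  | cons x u ih =>
    have h1 := hf x (hu x List.mem_cons_self)
    have h2 := ih (fun y hy => hu y (List.mem_cons_of_mem _ hy))
    have h3 : ∑ v ∈ range n, (kp M (x :: u) v : ℝ) * a v =
        ∑ v ∈ range n, (M x v : ℝ) * a v + ∑ v ∈ range n, (kp M u v : ℝ) * a v := by
      rw [← sum_add_distrib]
      refine sum_congr rfl fun v _ => ?_
      have h4 : kp M (x :: u) v = M x v + kp M u v := by simp [kp]
      rw [h4]
      push_cast
      ring
    have h5 : ((x :: u).map f).sum - ∑ v ∈ range n, (kp M (x :: u) v : ℝ) * a v =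
        (f x - ∑ v ∈ range n, (M x v : ℝ) * a v) +
          ((u.map f).sum - ∑ v ∈ range n, (kp M u v : ℝ) * a v) := by
      rw [h3, List.map_cons, List.sum_cons]
      ring
    rw [h5]
    refine (abs_add_le _ _).trans ?_
    rw [List.length_cons]
    push_cast
    linarith

/-- the height of a word of vertices -/
theorem FWE_low (h : ℕ → ℕ) (N : ℕ) (u : List ℕ) (hu : ∀ x ∈ u, N ≤ h x) :
    u.length * N ≤ (u.map h).sum := by
  induction u with
  | nil => simp
  | cons x u ih =>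
    have h1 := hu x List.mem_cons_self
    have h2 := ih (fun y hy => hu y (List.mem_cons_of_mem _ hy))
    rw [List.length_cons, List.map_cons, List.sum_cons, add_mul, one_mul]
    omega

theorem FWE (hFWA : FWA_stmt) (hFWD : FWD_stmt) (hSWE : SWE_stmt) (hMKL : MKL_stmt) : FWE_stmt := by
  intro m A A' M J Rk w hNx hW e s ς he hs hς
  obtain ⟨hlv, hAh, -, -, -, -, -⟩ := hMKL A hNx.gl
  obtain ⟨hlv', hAh', -, -, -, hWne, -⟩ := hMKL A' hNx.gl'
  obtain ⟨-, hlett, hvt, -, -, -, -, -⟩ := hFWA m A A' M J Rk w hNx hW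
  obtain ⟨-, hD⟩ := hFWD m A A' M J Rk w hNx hW
  have h0U : (0 : ℝ) ∈ U := ⟨le_rfl, zero_le_one⟩
  by_cases hen : e < A'.n
  · refine ⟨0, h0U, ?_⟩
    have h1 : A'.l.W e false = [e] := hlv'.vtx e hen false
    have h2 : A'.l.W e true = [e] := hlv'.vtx e hen true
    rw [h1, h2, hvt e s hen]
    simp only [List.map_cons, List.map_nil, List.sum_cons, List.sum_nil, add_zero, sub_zero,
      one_mul, zero_mul, sub_self, abs_zero]
    positivity
  · have hne : A'.n ≤ e := not_lt.mp hen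
    obtain ⟨d, hPd, -⟩ := hW.bd e hne he
    have hGd := hPd.q s hs
    obtain ⟨r, hr, hnr⟩ := hGd.nr
    have hnv := hGd.nv
    refine ⟨r, hr, ?_⟩
    set W₀ := A'.l.W e false with hW₀
    set W₁ := A'.l.W e true with hW₁
    set D := hw A.l.h (Dl A.l.N J) with hDd
    set a : ℕ → ℝ := fun v => ς v 0 with ha
    have hmem : ∀ b, ∀ x ∈ A'.l.W e b, x < A'.n := fun b => hlv'.mem e he b
    -- the words
    have e1 := (hSWE A.l hlv (w e s) (hlett e s he hs)).2.2 ς hς
    -- the counts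
    have e2 : |∑ v ∈ range A.l.n, (cv A.l (w e s) v : ℝ) * ς v 0 -
        ((1 - r) * ∑ v ∈ range A.l.n, (kp M W₀ v : ℝ) * a v +
          r * ∑ v ∈ range A.l.n, (kp M W₁ v : ℝ) * a v)| ≤
        2 * A.cs * ∑ v ∈ range A.n, (A.h v : ℝ) := by
      have h1 : ∑ v ∈ range A.l.n, (cv A.l (w e s) v : ℝ) * ς v 0 -
        ((1 - r) * ∑ v ∈ range A.l.n, (kp M W₀ v : ℝ) * a v +
          r * ∑ v ∈ range A.l.n, (kp M W₁ v : ℝ) * a v) =
          ∑ v ∈ range A.l.n, ((cv A.l (w e s) v : ℝ) -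
            ((1 - r) * (kp M W₀ v : ℝ) + r * (kp M W₁ v : ℝ))) * a v := by
        rw [mul_sum, mul_sum, ← sum_add_distrib, ← sum_sub_distrib]
        refine sum_congr rfl fun v _ => ?_
        change (cv A.l (w e s) v : ℝ) * a v - _ = _
        ring
      rw [h1]
      refine (abs_sum_le_sum_abs _ _).trans ?_
      rw [mul_sum]
      refine sum_le_sum fun v hv => ?_
      have hv' : v < A.n := mem_range.mp hv
      rw [abs_mul]
      have h2 := hnr v hv'
      have h3 : |a v| ≤ (A.h v : ℝ) := by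
        have h4 := hς v 0 (hv'.trans_le hlv.nN) h0U
        rw [hAh v hv'] at h4
        exact h4
      have h5 : (((fun v => (cv A.l (w e s) v : ℤ)) v : ℤ) : ℝ) = (cv A.l (w e s) v : ℝ) := by
        push_cast
        rfl
      rw [h5] at h2
      push_cast at h2
      exact mul_le_mul h2 h3 (abs_nonneg _) (by positivity)
    -- the words of the vertices
    have e3 : ∀ b, |((A'.l.W e b).map fun v => sw ς (w v 0)).sum -
        ∑ v ∈ range A.l.n, (kp M (A'.l.W e b) v : ℝ) * a v| ≤ (A'.l.W e b).length * (2 * (D : ℝ)) :=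
      fun b => FWE_list A.l.n A'.n M a (fun v => sw ς (w v 0)) (2 * (D : ℝ))
        (fun x hx => (hD x ς hx hς).1) (A'.l.W e b) (hmem b)
    -- heights
    have hNb : ∀ x, x < A'.n → Nb m A J ≤ A'.l.h x := by
      intro x hx
      rw [hAh' x hx, hNx.hh x hx]
      have h1 : M x 0 * A.h 0 ≤ ∑ v ∈ range A.n, M x v * A.h v :=
        single_le_sum (f := fun v => M x v * A.h v) (fun _ _ => Nat.zero_le _)
          (mem_range.mpr hNx.gl.n0)
      have h2 := hNx.big x 0 hx hNx.gl.n0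
      have h3 := hNx.gl.pos 0 hNx.gl.n0
      have h4 : M x 0 * 1 ≤ M x 0 * A.h 0 := Nat.mul_le_mul le_rfl h3
      omega
    have hlow : ∀ b, (A'.l.W e b).length * Nb m A J ≤ A'.l.h e := by
      intro b
      rw [← hlv'.ht e he b]
      exact FWE_low A'.l.h (Nb m A J) _ fun x hx => hNb x (hmem b x hx)
    have hX : 2 ^ (m + 1) * (4 * D + 2 * A.cs * ∑ v ∈ range A.n, A.h v) ≤ Nb m A J := by
      unfold Nb
      rw [← hDd]
      generalize 2 ^ (m + 1) * (4 * D + 2 * A.cs * ∑ v ∈ range A.n, A.h v) = q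
      omega
    have hp1 : 1 ≤ W₀.length := by
      rcases Nat.eq_zero_or_pos W₀.length with h | h
      · exact absurd (List.length_eq_zero_iff.mp h) (hWne e false he)
      · exact h
    have hfin : 2 ^ m * ((W₀.length + W₁.length) *
        (4 * D + 2 * A.cs * ∑ v ∈ range A.n, A.h v)) ≤ A'.l.h e := by
      have h1 := hlow false
      have h2 := hlow true
      have h3 : (W₀.length + W₁.length) *
          (2 ^ (m + 1) * (4 * D + 2 * A.cs * ∑ v ∈ range A.n, A.h v)) ≤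
          (W₀.length + W₁.length) * Nb m A J := Nat.mul_le_mul le_rfl hX
      have h4 : (W₀.length + W₁.length) *
          (2 ^ (m + 1) * (4 * D + 2 * A.cs * ∑ v ∈ range A.n, A.h v)) =
          2 * (2 ^ m * ((W₀.length + W₁.length) *
        (4 * D + 2 * A.cs * ∑ v ∈ range A.n, A.h v))) := by ring
      rw [h4, add_mul (W₀.length) (W₁.length) (Nb m A J)] at h3
      change W₀.length * Nb m A J ≤ A'.l.h e at h1
      change W₁.length * Nb m A J ≤ A'.l.h e at h2
      generalize 2 ^ m * ((W₀.length + W₁.length) *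
        (4 * D + 2 * A.cs * ∑ v ∈ range A.n, A.h v)) = q at h3 ⊢
      omega
    have hfinR : (2 : ℝ) ^ m * (((W₀.length : ℝ) + W₁.length) *
        (4 * D + 2 * A.cs * ∑ v ∈ range A.n, (A.h v : ℝ))) ≤ (A'.l.h e : ℝ) := by
      exact_mod_cast hfin
    have hgoal : ((W₀.length : ℝ) + W₁.length) *
        (4 * D + 2 * A.cs * ∑ v ∈ range A.n, (A.h v : ℝ)) ≤ (1 / 2) ^ m * (A'.l.h e : ℝ) := by
      have h1 : ((W₀.length : ℝ) + W₁.length) *
        (4 * D + 2 * A.cs * ∑ v ∈ range A.n, (A.h v : ℝ)) =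
          (1 / 2) ^ m * ((2 : ℝ) ^ m * (((W₀.length : ℝ) + W₁.length) *
        (4 * D + 2 * A.cs * ∑ v ∈ range A.n, (A.h v : ℝ)))) := by
        rw [← mul_assoc ((1 / 2 : ℝ) ^ m), ← mul_pow]
        norm_num
      rw [h1]
      exact mul_le_mul_of_nonneg_left hfinR (by positivity)
    refine le_trans ?_ hgoal
    -- assembly
    have f0 := e3 false
    have f1 := e3 true
    change |(W₀.map fun v => sw ς (w v 0)).sum -
      ∑ v ∈ range A.l.n, (kp M W₀ v : ℝ) * a v| ≤ (W₀.length : ℝ) * (2 * (D : ℝ)) at f0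
    change |(W₁.map fun v => sw ς (w v 0)).sum -
      ∑ v ∈ range A.l.n, (kp M W₁ v : ℝ) * a v| ≤ (W₁.length : ℝ) * (2 * (D : ℝ)) at f1
    have hnvR : (nvh A.l (w e s) : ℝ) ≤ ((W₀.length : ℝ) + W₁.length) * D := by
      exact_mod_cast hnv
    have hr0 : 0 ≤ r := hr.1
    have hr1 : 0 ≤ 1 - r := by linarith [hr.2]
    set S₀ := (W₀.map fun v => sw ς (w v 0)).sum with hS₀
    set S₁ := (W₁.map fun v => sw ς (w v 0)).sum with hS₁
    set K₀ := ∑ v ∈ range A.l.n, (kp M W₀ v : ℝ) * a v with hK₀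
    set K₁ := ∑ v ∈ range A.l.n, (kp M W₁ v : ℝ) * a v with hK₁
    set Cn := ∑ v ∈ range A.l.n, (cv A.l (w e s) v : ℝ) * ς v 0 with hCn
    have hsplit : sw ς (w e s) - ((1 - r) * S₀ + r * S₁) =
        (sw ς (w e s) - Cn) + (Cn - ((1 - r) * K₀ + r * K₁)) +
          (-((1 - r) * (S₀ - K₀)) + -(r * (S₁ - K₁))) := by ring
    rw [hsplit]
    have g1 : |-((1 - r) * (S₀ - K₀)) + -(r * (S₁ - K₁))| ≤
        (W₀.length : ℝ) * (2 * (D : ℝ)) + (W₁.length : ℝ) * (2 * (D : ℝ)) := by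
      refine (abs_add_le _ _).trans ?_
      rw [abs_neg, abs_neg, abs_mul, abs_mul, abs_of_nonneg hr0, abs_of_nonneg hr1]
      have k0 : (1 - r) * |S₀ - K₀| ≤ 1 * ((W₀.length : ℝ) * (2 * (D : ℝ))) :=
        mul_le_mul (by linarith) f0 (abs_nonneg _) zero_le_one
      have k1 : r * |S₁ - K₁| ≤ 1 * ((W₁.length : ℝ) * (2 * (D : ℝ))) :=
        mul_le_mul hr.2 f1 (abs_nonneg _) zero_le_one
      linarith
    have g2 := abs_add_le ((sw ς (w e s) - Cn) + (Cn - ((1 - r) * K₀ + r * K₁)))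
      (-((1 - r) * (S₀ - K₀)) + -(r * (S₁ - K₁)))
    have g3 := abs_add_le (sw ς (w e s) - Cn) (Cn - ((1 - r) * K₀ + r * K₁))
    have hp1R : (1 : ℝ) ≤ (W₀.length : ℝ) + W₁.length := by
      have h1 : (1 : ℝ) ≤ (W₀.length : ℝ) := by exact_mod_cast hp1
      have h2 : (0 : ℝ) ≤ (W₁.length : ℝ) := by positivity
      linarith
    have hcs : 0 ≤ 2 * (A.cs : ℝ) * ∑ v ∈ range A.n, (A.h v : ℝ) := by positivity
    have h7 : 1 * (2 * (A.cs : ℝ) * ∑ v ∈ range A.n, (A.h v : ℝ)) ≤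
        ((W₀.length : ℝ) + W₁.length) * (2 * (A.cs : ℝ) * ∑ v ∈ range A.n, (A.h v : ℝ)) :=
      mul_le_mul_of_nonneg_right hp1R hcs
    rw [mul_add]
    have h8 : ((W₀.length : ℝ) + W₁.length) * (4 * (D : ℝ)) =
        2 * (((W₀.length : ℝ) + W₁.length) * D) +
          ((W₀.length : ℝ) * (2 * (D : ℝ)) + (W₁.length : ℝ) * (2 * (D : ℝ))) := by ring
    linarith

end Pool.Agent.BND.EX
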