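import Pool.Agent.helper70.BND.SpecH

/-! SQH: the sequence of states. -/

set_option autoImplicit false

open scoped Topology
open Finset

namespace Pool.Agent.BND.EX

theorem SQH (hSTA : STA_stmt) (hSTE : STE_stmt) : SQH_stmt := by
  intro H _ _ P g hSOG H' hg hH'
  have hne : Nonempty {x : H // P x} := ⟨⟨g, hSOG.unit⟩⟩
  obtain ⟨e, he⟩ := exists_surjective_nat {x : H // P x}
  obtain ⟨σ₀, hσ₀⟩ := hSTA H P g hSOG H' hg hH'
  have hstep : ∀ (m : ℕ) (σ : {σ : Sta H // IsSta P g H' m σ}),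
      ∃ (σ' : {σ : Sta H // IsSta P g H' (m + 1) σ}) (M : ℕ → ℕ → ℕ)
        (w : ℕ → ℝ → List (ℕ × ℝ)) (S : Set ℝ), IsStep (RkOne H') m σ.1 σ'.1 M w S ∧
        ∃ c : ℕ → ℕ, (e m).1 = ∑ v ∈ range σ'.1.A.n, c v • σ'.1.th v := by
    intro m σ
    obtain ⟨σ', M, w, S, h1, h2, h3⟩ := hSTE H P g hSOG H' hg hH' m σ.1 σ.2 (e m).1 (e m).2
    exact ⟨⟨σ', h1⟩, M, w, S, h2, h3⟩
  choose nx M w S hS hc using hstep
  let sq : ∀ m, {σ : Sta H // IsSta P g H' m σ} := fun m =>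
    Nat.rec (motive := fun m => {σ : Sta H // IsSta P g H' m σ}) ⟨σ₀, hσ₀⟩ nx m
  refine ⟨fun m => (sq m).1, fun m => M m (sq m), fun m => w m (sq m), fun m => S m (sq m),
    fun m => (sq m).2, fun m => hS m (sq m), ?_⟩
  intro x hx
  obtain ⟨i, hi⟩ := he ⟨x, hx⟩
  obtain ⟨c, hc'⟩ := hc i (sq i)
  refine ⟨i + 1, c, ?_⟩
  have h1 : (e i).1 = x := by rw [hi]
  rw [← h1]
  exact hc'

end Pool.Agent.BND.EX
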